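import Mathlib
import Pool.Agent.Axis.FIN
import Pool.Agent.Plt.PiecesMain

/-! # Critical pieces separated by weak walls at infinitely many scales, `d ≥ 3` -/

namespace Pool.Agent.Archive.MP_e13933_pr.CriticalPieces

open Pool.Agent.Perc Pool.Agent.PercM

/-- Let `d ≥ 3` and let `N` be a finite set of nonzero real vectors. There are `C, b > 0` such that
the following holds for all fields of densities `r : ℤ ^ d → [0, 1]`. Suppose that for infinitely
many `n` there are a colouring `piece` of `ℤ ^ d` and `0 < δ ≤ p_c`, with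
`T = log n * exp (C / δ * log (2 / δ)) ≤ n ^ b`, such that in the annulus `n ^ b ≤ ‖x‖ ≤ n`

* sites of different colours with `r > p_c - δ` are at distance at least `T`;
* for each colour there is `ν ∈ N` such that the sites of that colour with `r > p_c - δ` lie in
  the half-space `ν · x ≤ n ^ b`;
* the sum of the squares of the positive parts of `r x - p_c` is at most `b * log n`.

If every site `x` is open with probability `r x`, independently, then almost surely all open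
clusters are finite. -/
theorem result (d : ℕ) (hd : 3 ≤ d) (N : Finset (Fin d → ℝ)) (hN : ∀ ν ∈ N, ν ≠ 0) :
    ∃ C b : ℝ, 0 < C ∧ 0 < b ∧ ∀ r : Site d → unitInterval,
      (∃ᶠ n : ℕ in Filter.atTop, ∃ (piece : Site d → ℕ) (δ : ℝ), 0 < δ ∧ δ ≤ (pc d : ℝ) ∧
        Real.log n * Real.exp (C / δ * Real.log (2 / δ)) ≤ (n : ℝ) ^ b ∧
        (∀ x y : Site d, (n : ℝ) ^ b ≤ ‖x‖ → ‖x‖ ≤ n → (n : ℝ) ^ b ≤ ‖y‖ → ‖y‖ ≤ n →
          (pc d : ℝ) - δ < r x → (pc d : ℝ) - δ < r y → piece x ≠ piece y →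
          Real.log n * Real.exp (C / δ * Real.log (2 / δ)) ≤ ‖x - y‖) ∧
        (∀ k, ∃ ν ∈ N, ∀ x : Site d, (n : ℝ) ^ b ≤ ‖x‖ → ‖x‖ ≤ n → (pc d : ℝ) - δ < r x →
          piece x = k → ∑ j, ν j * (x j : ℝ) ≤ (n : ℝ) ^ b) ∧
        ∀ F : Finset (Site d), (∀ x ∈ F, (n : ℝ) ^ b ≤ ‖x‖ ∧ ‖x‖ ≤ n) →
          ∑ x ∈ F, (max ((r x : ℝ) - (pc d : ℝ)) 0) ^ 2 ≤ b * Real.log n) →
      ∀ᵐ ω ∂(law r), ∀ x, (cluster ω x).Finite :=
  Pool.Agent.Plt.pieces_main hd (fun nu hnu => Pool.Agent.Axis.all_arm hd nu hnu) N hN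

end Pool.Agent.Archive.MP_e13933_pr.CriticalPieces
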